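import Pool.Agent.R942.WR.Betti

/-!
# MP_0f76a4_ag: wrong Frobenius eigenvalues and the third Betti numbers of the strata
-/

set_option autoImplicit false

open Module

universe u v

namespace Pool.Agent.Results.MP_0f76a4_ag.BettiBound

open Pool.Agent.Y143 Pool.Agent.R942.WB Pool.Agent.R942.WR

/-- **The defect of the weight-monodromy conjecture and the third Betti numbers.** Let `X` be a proper
smooth rigid-analytic space of dimension `n` over a `p`-adic local field with a strictly semistable
formal model with projective special fibre, and let `Y^(m)` be the disjoint union of the intersections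
of `m` different components of the special fibre. Let `2 ≤ m ≤ n`. On the graded pieces `gr^M_j` of
`H^m` and of `H^(2 n - m)` with `|j| = m - 2` (the first ones for which the conjecture is open, since
the hard Lefschetz theorem is not known for `X`), the number of Frobenius eigenvalues (with
multiplicities) which are not `q`-Weil numbers of weight `m + j` (`2 n - m + j`, respectively) is at
most `b_3 - b_1`, where `b_3` and `b_1` are the Betti numbers of `Y^(m-1)`.

For instance, `gr^M_0 H^2` has at most `b_3 - b_1` wrong eigenvalues, where `b_3` and `b_1` are the
sums of the Betti numbers of the components of the special fibre. -/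
theorem result {Ω : Type u} [Field Ω] [CharZero Ω] [IsAlgClosed Ω] {Γ : Type} {n q : ℕ}
    (X : SemistableModel.{u, v} Ω Γ n q) (A : DivisorClasses X.toSpecialFibre) (m : ℕ) (hm : 2 ≤ m)
    (hmn : m ≤ n) (j : ℤ) (hj : |j| = (m : ℤ) - 2) :
    WrongAtMost X m j (oddRank X (m - 2)) ∧ WrongAtMost X (2 * n - m) j (oddRank X (m - 2)) :=
  bound_second A hm hmn j hj

end Pool.Agent.Results.MP_0f76a4_ag.BettiBound
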