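import Pool.Agent.R942.WM.Final

/-!
# MP_0f76a4_ag: the weight-monodromy conjecture for the outer weights
-/

set_option autoImplicit false

open Module

universe u v

namespace Pool.Agent.Results.MP_0f76a4_ag.OuterWeights

open Pool.Agent.Y143 Pool.Agent.R942.WM

section

variable {Ω : Type u} [Field Ω] [CharZero Ω] {Γ : Type} {n q : ℕ}
  {X : SemistableModel.{u, v} Ω Γ n q}

/-- The graded pieces `gr^M_j` of `H^i` with `|j| ≥ i - 1` (and dually for `H^(2 n - i)`). -/
def FirstLayers (X : SemistableModel.{u, v} Ω Γ n q) : Prop :=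
  ∀ i : ℕ, 1 ≤ i → i ≤ n → PureBeyond X i (i - 1) ∧ PureBeyond X (2 * n - i) (i - 1)

/-- The graded pieces `gr^M_j` of `H^i` with `|j| ≥ i - 2` (and dually for `H^(2 n - i)`). -/
def SecondLayers (X : SemistableModel.{u, v} Ω Γ n q) : Prop :=
  ∀ i : ℕ, 2 ≤ i → i ≤ n →
    (WeightInj X i (i - 1) ∧ WeightSurj X (2 * n - i) (i - 1)) ∧
    (i = n ∨ SameBetti X (i - 2) 3 1 → PureBeyond X i (i - 2) ∧ PureBeyond X (2 * n - i) (i - 2))

/-- The graded pieces `gr^M_j` of `H^i` with `|j| ≥ i - 3` (and dually for `H^(2 n - i)`). -/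
def ThirdLayers (A : DivisorClasses X.toSpecialFibre) : Prop :=
  ∀ i : ℕ, 3 ≤ i → i ≤ n → SpannedByDivisors A (i - 3) →
    (WeightInj X i (i - 2) ∧ WeightSurj X (2 * n - i) (i - 2)) ∧
    (i = n ∨ SameBetti X (i - 2) 3 1 ∧ SameBetti X (i - 3) 4 2 →
      PureBeyond X i (i - 3) ∧ PureBeyond X (2 * n - i) (i - 3))

end

/-- **The weight-monodromy conjecture for the outer weights.** Let `X` be a proper smooth
rigid-analytic space of dimension `n` over a `p`-adic local field with a strictly semistable formal
model with projective special fibre, let `Y^(m)` be the disjoint union of the intersections of `m`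
different components of the special fibre, and let `1 ≤ i ≤ n`.

(1) Every Frobenius eigenvalue on `gr^M_j H^i` is a Weil number of weight `i + j` if `|j| ≥ i - 1`.

(2) If `i = n`, or if `b₃ = b₁` on `Y^(i-1)`, the same holds if `|j| ≥ i - 2`; in any case
`N^(i-1)` is injective on the graded piece of weight `2 i - 1`.

(3) If `i ≥ 3` and the second cohomology group of `Y^(i-2)` is spanned by the classes of divisors,
then `N^(i-2)` is injective on the graded piece of weight `2 i - 2`; if moreover `i = n`, or
`b₃ = b₁` on `Y^(i-1)` and `b₄ = b₂` on `Y^(i-2)`, the same as in (1) holds if `|j| ≥ i - 3`.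

Everything holds for `H^(2n-i)` in place of `H^i` too (with surjectivity in place of injectivity).
For example, the conjecture holds for all cohomology groups if `n = 2`; for `H^0`, `H^1`,
`H^(2n-1)`, `H^(2n)` in general; for `H^2` and `H^(2n-2)` if `b₃ = b₁` on `Y^(1)`; for the `gr^M_j H^n`
with `|j| ≥ n - 2` in general, and for those with `|j| ≥ n - 3` if the second cohomology group of
`Y^(n-2)` is spanned by the classes of divisors. -/
theorem result {Ω : Type u} [Field Ω] [CharZero Ω] {Γ : Type} {n q : ℕ}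
    (X : SemistableModel.{u, v} Ω Γ n q) (A : DivisorClasses X.toSpecialFibre) :
    (PureBeyond X 0 0 ∧ PureBeyond X (2 * n) 0) ∧ FirstLayers X ∧ SecondLayers X ∧
      ThirdLayers A :=
  ⟨main_zero, fun _ h1 h2 => main_one A h1 h2,
    fun _ h1 h2 => ⟨main_two_inj A h1 h2, fun h => main_two A h1 h2 h⟩,
    fun _ h1 h2 hA => ⟨main_three_inj A h1 h2 hA, fun h => main_three A h1 h2 hA h⟩⟩

end Pool.Agent.Results.MP_0f76a4_ag.OuterWeights
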