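import Pool.Agent.R937.WN.Main

/-!
# MP_0f76a4_ag: weights with a sublinear error imply the weight-monodromy conjecture

Let `K₀` be a `p`-adic local field whose residue field has `q` elements. For the smooth quasi-compact
quasi-separated rigid-analytic varieties `X` over `K₀` which have a formal model with projective special
fibre the following are equivalent:

* the weight-monodromy conjecture (Q1): for all `X`, `i`, `j` all Frobenius eigenvalues on
  `gr^M_j H^i(X)` are `q`-Weil numbers of weight `i + j`;
* for all `X` of even dimension and all even `i` the Frobenius eigenvalues on the one subquotient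
  `ker N / (ker N ∩ im N)` of `H^i(X)` are algebraic numbers all of whose complex conjugates `β'`
  satisfy `q ^ ((i - 1) / 2) ≤ |β'| ≤ q ^ ((i + 1) / 2)`: the weight is `i`, up to an error of at most one;
* the same with an error of at most `b (dim X)`, for one function `b` with `b(d) / d → 0`.

So if the weight-monodromy conjecture fails for one `X` then the weights on the part of the cohomology
which is killed by `N` and does not come from `im N` are wrong by at least `c dim Y`, `c > 0`, for
suitable `Y` of arbitrarily large dimension; and only this part of the cohomology has to be studied.

The reasons: a string of length `a + 1` of `N` on `H^i(X)` whose weights are wrong by `δ` gives a string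
of length one on `H^(2i)(X × X)` whose weight is wrong by `2 δ`, and the errors add up in powers.

Formulation. `Theory` is a class of varieties over `K₀` that is closed under products (the product of
formal models is a formal model of the product, with projective special fibre) with the spaces
`H X i = H^i(X, ℚ_ℓ) ⊗ K`, `K` a field of characteristic zero that contains `ℚ_ℓ`, a geometric Frobenius lift
`Φ`, the monodromy operator `N` and its monodromy filtration `M` (`IsMonodromy`; it is unique, so it is
stable under `Φ`), and with the Künneth formula in the form that `H X i ⊗ H Y j` is a direct summand of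
`H (X × Y) (i + j)`. `Occ 0 β` says that `β` is an eigenvalue on `ker N / (ker N ∩ im N)`.
-/

universe u v w

namespace Pool.Agent.Results.MP_0f76a4_ag.SublinearWeights

open Pool.Agent.R937.WN

/-- **Weights with a sublinear error imply the weight-monodromy conjecture.** -/
theorem result {K : Type v} [Field K] [CharZero K] {q : ℕ} (hq : 1 < q)
    (T : Theory.{u, v, w} K q) :
    List.TFAE [∀ (X : T.Obj) (i : ℕ), T.WMC X i,
      ∀ (X : T.Obj) (i : ℕ) (β : K), Even (T.dim X) → Even i → (T.H X i).Occ 0 β →
        WeightNear q 1 i β,
      ∃ b : ℕ → ℕ, (∀ C : ℕ, ∃ N, ∀ n ≥ N, C * b n ≤ n) ∧
        ∀ (X : T.Obj) (i : ℕ) (β : K), Even (T.dim X) → Even i → (T.H X i).Occ 0 β →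
          WeightNear q (b (T.dim X)) i β] :=
  main T hq

end Pool.Agent.Results.MP_0f76a4_ag.SublinearWeights
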