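import Pool.Agent.R942.WR.Main

/-!
# MP_0f76a4_ag: wrong Frobenius eigenvalues and transcendental classes, middle degree
-/

set_option autoImplicit false

open Module

universe u v

namespace Pool.Agent.Results.MP_0f76a4_ag.TranscendentalBound

open Pool.Agent.Y143 Pool.Agent.R942.WB Pool.Agent.R942.WR

/-- **The defect of the weight-monodromy conjecture in the middle degree and the transcendental
classes of degree two.** Let `X` be a proper smooth rigid-analytic space of dimension `n ≥ 3` over a
`p`-adic local field with a strictly semistable formal model with projective special fibre, and let
`Y^(m)` be the disjoint union of the intersections of `m` different components of the special fibre.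
On the graded pieces `gr^M_j` of `H^n` with `|j| = n - 3`, the number of Frobenius eigenvalues (with
multiplicities) which are not `q`-Weil numbers of weight `n + j` is at most `2 (b_2 - ρ)`, where `b_2`
is the second Betti number of `Y^(n-2)` and `ρ` is the dimension of the subspace of `H^2(Y^(n-2))`
spanned by the classes of divisors.

The hard Lefschetz theorem for `X` (which need not be algebraic) is not used. For `n = 3` the only
open graded piece of `H^3` is `gr^M_0`: it has at most `2 (b_2 - ρ)` wrong eigenvalues, where `b_2`
and `ρ` are the sums of the second Betti numbers and of the Picard numbers of the components of the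
special fibre. -/
theorem result {Ω : Type u} [Field Ω] [CharZero Ω] [IsAlgClosed Ω] {Γ : Type} {n q : ℕ}
    (X : SemistableModel.{u, v} Ω Γ n q) (A : DivisorClasses X.toSpecialFibre) (hn : 3 ≤ n) (j : ℤ)
    (hj : |j| = (n : ℤ) - 3) : WrongAtMost X n j (2 * transRank A (n - 3)) :=
  bound_middle A hn j hj

end Pool.Agent.Results.MP_0f76a4_ag.TranscendentalBound
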